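import Pool.Agent.Q74.PD.Stm

/-! Project PD of helper74, JOB Inj: `theorem inj : S_Inj`. -/

set_option autoImplicit false

namespace Pool.Agent.Q11.PD

open Finset Filter Topology
open Pool.Agent.H499R2.ND Pool.Agent.H320R2.PD Pool.Agent.Y856.PD Pool.Agent.Q74.PD

theorem Td_even (d c : ℤ) : Td d (2 * c) = c := by
  unfold Td
  rw [if_pos (by omega)]
  omega

theorem Td_pow (d b : ℤ) (j : ℕ) : (Td d)^[j] (2 ^ j * b) = b := by
  induction j with
  | zero => simp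
  | succ j ih =>
    rw [Function.iterate_succ_apply, show (2 : ℤ) ^ (j + 1) * b = 2 * (2 ^ j * b) by ring,
      Td_even, ih]

theorem Td_odd_step {d x M : ℤ} {e : ℕ} (hd : Odd d) (he : 1 ≤ e) (h : 3 * x + d = 2 ^ e * M) :
    Odd x ∧ (Td d)^[e] x = M := by
  obtain ⟨e, rfl⟩ : ∃ e', e = e' + 1 := ⟨e - 1, by omega⟩
  obtain ⟨y, hy⟩ : ∃ y : ℤ, y = 2 ^ e * M := ⟨_, rfl⟩
  have h2 : 3 * x + d = 2 * y := by rw [h, hy]; ring
  have hodd : Odd x := by
    obtain ⟨t, ht⟩ := hd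
    rw [Int.odd_iff]
    omega
  refine ⟨hodd, ?_⟩
  rw [Function.iterate_succ_apply]
  have h3 : Td d x = y := by
    unfold Td
    rw [Int.odd_iff] at hodd
    rw [if_neg (by omega)]
    omega
  rw [h3, hy, Td_pow]

theorem split {d a x : ℤ} {u : List ℕ} {e : ℕ}
    (h : 3 ^ (u ++ [e]).length * x + d * (Wo (u ++ [e]) : ℤ) = 2 ^ (u ++ [e]).sum * a) :
    ∃ M : ℤ, 3 * x + d = 2 ^ e * M ∧ 3 ^ u.length * M + d * (Wo u : ℤ) = 2 ^ u.sum * a := by
  rw [Wo_snoc', List.length_append, List.sum_append, List.length_singleton, List.sum_singleton,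
    pow_succ, pow_add] at h
  have h1 : (3 : ℤ) ^ u.length * (3 * x + d) = 2 ^ e * (2 ^ u.sum * a - d * Wo u) := by linarith
  have hcop : IsCoprime ((2 : ℤ) ^ e) ((3 : ℤ) ^ u.length) := by
    apply IsCoprime.pow
    exact ⟨-1, 1, by norm_num⟩
  have h2 : (2 : ℤ) ^ e ∣ 3 * x + d := hcop.dvd_of_dvd_mul_left ⟨_, h1⟩
  obtain ⟨M, hM⟩ := h2
  refine ⟨M, hM, ?_⟩
  have h3 : (2 : ℤ) ^ e * (3 ^ u.length * M) = 2 ^ e * (2 ^ u.sum * a - d * Wo u) := by
    rw [← h1, hM]; ring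
  have := mul_left_cancel₀ (by positivity : (2 : ℤ) ^ e ≠ 0) h3
  linarith

theorem path {d : ℤ} (hd : Odd d) (a : ℤ) (w : List ℕ) : (∀ e ∈ w, 1 ≤ e) → w ≠ [] → ∀ x : ℤ,
    3 ^ w.length * x + d * (Wo w : ℤ) = 2 ^ w.sum * a → Odd x ∧ (Td d)^[w.sum] x = a := by
  induction w using List.reverseRecOn with
  | nil => intro _ h; exact (h rfl).elim
  | append_singleton u e ih =>
    intro hw _ x h
    have hu : ∀ b ∈ u, 1 ≤ b := fun b hb => hw b (by simp [hb])
    have he : 1 ≤ e := hw e (by simp)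
    obtain ⟨M, h1, h2⟩ := split h
    obtain ⟨h3, h4⟩ := Td_odd_step hd he h1
    refine ⟨h3, ?_⟩
    rw [List.sum_append, List.sum_singleton, Function.iterate_add_apply, h4]
    rcases eq_or_ne u [] with rfl | hne
    · simp [Wo] at h2 ⊢
      exact h2
    · exact (ih hu hne M h2).2

theorem uniq {d : ℤ} (hd : Odd d) (a : ℤ) (w : List ℕ) : (∀ e ∈ w, 1 ≤ e) → w ≠ [] →
    ∀ w' : List ℕ, (∀ e ∈ w', 1 ≤ e) → w' ≠ [] → w.sum = w'.sum → ∀ x : ℤ,
    3 ^ w.length * x + d * (Wo w : ℤ) = 2 ^ w.sum * a →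
    3 ^ w'.length * x + d * (Wo w' : ℤ) = 2 ^ w'.sum * a → w = w' := by
  induction w using List.reverseRecOn with
  | nil => intro _ h; exact (h rfl).elim
  | append_singleton u e ih =>
    intro hw _ w' hw' hne' hs x h h'
    rcases List.eq_nil_or_concat w' with rfl | ⟨u', e', hv'⟩
    · exact (hne' rfl).elim
    · rw [List.concat_eq_append] at hv'
      subst hv'
      have hu : ∀ b ∈ u, 1 ≤ b := fun b hb => hw b (by simp [hb])
      have he : 1 ≤ e := hw e (by simp)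
      have hu' : ∀ b ∈ u', 1 ≤ b := fun b hb => hw' b (by simp [hb])
      have he' : 1 ≤ e' := hw' e' (by simp)
      obtain ⟨M, h1, h2⟩ := split h
      obtain ⟨M', h1', h2'⟩ := split h'
      have hMM : (2 : ℤ) ^ e * M = 2 ^ e' * M' := by rw [← h1, ← h1']
      rw [List.sum_append, List.sum_singleton, List.sum_append, List.sum_singleton] at hs
      -- an auxiliary fact
      have aux : ∀ {v : List ℕ} {f f' : ℕ} {N N' : ℤ}, (∀ b ∈ v, 1 ≤ b) → v ≠ [] → 1 ≤ f' →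
          f = v.sum + f' → N = a → 3 ^ v.length * N' + d * (Wo v : ℤ) = 2 ^ v.sum * a →
          (2 : ℤ) ^ f * N = 2 ^ f' * N' → False := by
        intro v f f' N N' hv hvne hf' hf hN h3 h4
        have h5 := (path hd a v hv hvne N' h3).1
        have h6 : 1 ≤ v.sum := by
          obtain ⟨b, v', rfl⟩ := List.exists_cons_of_ne_nil hvne
          have := hv b (by simp)
          simp only [List.sum_cons]; omega
        rw [hf, pow_add, mul_comm ((2 : ℤ) ^ v.sum) (2 ^ f'), mul_assoc] at h4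
        have h7 := mul_left_cancel₀ (by positivity : (2 : ℤ) ^ f' ≠ 0) h4
        have h8 : Even N' := by
          rw [← h7]
          exact Even.mul_right (even_two.pow_of_ne_zero (by omega)) _
        exact (Int.not_odd_iff_even.2 h8) h5
      rcases eq_or_ne u [] with rfl | hne
      · rcases eq_or_ne u' [] with rfl | hne''
        · simp at hs
          rw [hs]
        · exfalso
          have hN : M = a := by
            simp [Wo] at h2
            exact h2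
          exact aux hu' hne'' he' (by simpa using hs) hN h2' hMM
      · rcases eq_or_ne u' [] with rfl | hne''
        · exfalso
          have hN : M' = a := by
            simp [Wo] at h2'
            exact h2'
          exact aux hu hne he (by simpa using hs.symm) hN h2 hMM.symm
        · have ho := (path hd a u hu hne M h2).1
          have ho' := (path hd a u' hu' hne'' M' h2').1
          obtain ⟨he1, hM1⟩ := pow_two_unique hMM ho ho'
          subst he1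
          subst hM1
          rw [ih hu hne u' hu' hne'' (by omega) M h2 h2']

theorem log_three_lt : Real.log 3 < 6 / 5 := by
  have h1 : Real.log ((3 : ℝ) ^ 5) ≤ Real.log ((2 : ℝ) ^ 8) :=
    Real.log_le_log (by positivity) (by norm_num)
  rw [Real.log_pow, Real.log_pow] at h1
  have h2 := Real.log_two_lt_d9
  push_cast at h1
  linarith

theorem three_pow_le {A : ℝ} (hA : 1 ≤ A) {k : ℕ} (hk : k ≤ ⌊Real.log A / 2⌋₊) :
    (3 : ℝ) ^ k ≤ A ^ (3 / 5 : ℝ) := by
  have h0 : 0 ≤ Real.log A := Real.log_nonneg hA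
  have h1 : (k : ℝ) ≤ Real.log A / 2 := (Nat.le_floor_iff (by positivity)).1 hk
  have h2 := log_three_lt
  have h3 : 0 < Real.log 3 := Real.log_pos (by norm_num)
  rw [← Real.exp_log (by positivity : (0 : ℝ) < 3 ^ k), Real.log_pow,
    Real.rpow_def_of_pos (by linarith)]
  apply Real.exp_le_exp.2
  have h4 : (k : ℝ) * Real.log 3 ≤ Real.log A / 2 * Real.log 3 :=
    mul_le_mul_of_nonneg_right h1 h3.le
  nlinarith

theorem Wo_le' {w : List ℕ} (hw : ∀ e ∈ w, 1 ≤ e) :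
    (Wo w : ℝ) ≤ 2 ^ w.sum * 3 ^ w.length := by
  refine (Wo_le hw).trans ?_
  apply mul_le_mul_of_nonneg_left _ (by positivity)
  have : (3 / 2 : ℝ) ^ w.length ≤ 3 ^ w.length := pow_le_pow_left₀ (by norm_num) (by norm_num) _
  linarith

/-- the start of a valid word -/
theorem start_est {d : ℤ} {δ : ℝ} {k T : ℕ} {a x : ℤ} {w : List ℕ}
    (h1 : |(d : ℝ)| * 3 ^ k ≤ δ * a) (hw : ∀ e ∈ w, 1 ≤ e) (hl : w.length = k) (hs : w.sum = T)
    (hx : (3 : ℤ) ^ k * x + d * Wo w = 2 ^ T * a) :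
    |(x : ℝ) - 2 ^ T * a / 3 ^ k| ≤ δ * (2 ^ T * a / 3 ^ k) := by
  have h2 : (3 : ℝ) ^ k * x + d * Wo w = 2 ^ T * a := by exact_mod_cast hx
  have h3 : (0 : ℝ) < 3 ^ k := by positivity
  have h4 : (x : ℝ) - 2 ^ T * a / 3 ^ k = -(d * Wo w) / 3 ^ k := by
    field_simp
    linarith
  have h5 := Wo_le' hw
  rw [hl, hs] at h5
  have h6 : (0 : ℝ) ≤ Wo w := Nat.cast_nonneg _
  rw [h4, abs_div, abs_neg, abs_mul, abs_of_nonneg h6, abs_of_pos h3, ← mul_div_assoc,
    div_le_div_iff_of_pos_right h3]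
  calc |(d : ℝ)| * Wo w ≤ |(d : ℝ)| * (2 ^ T * 3 ^ k) := mul_le_mul_of_nonneg_left h5 (abs_nonneg _)
    _ = 2 ^ T * (|(d : ℝ)| * 3 ^ k) := by ring
    _ ≤ 2 ^ T * (δ * a) := mul_le_mul_of_nonneg_left h1 (by positivity)
    _ = δ * (2 ^ T * a) := by ring

open Classical in
theorem inj : S_Inj := by
  intro d hd hd3 ε hε
  set δ : ℝ := min ε (1 / 2) with hδdef
  have hδ : 0 < δ := lt_min hε (by norm_num)
  have hδε : δ ≤ ε := min_le_left _ _
  have hδ2 : δ ≤ 1 / 2 := min_le_right _ _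
  have hlim : Tendsto (fun A : ℝ => A ^ (2 / 5 : ℝ)) atTop atTop :=
    tendsto_rpow_atTop (by norm_num)
  obtain ⟨A₁, hA₁⟩ := Filter.eventually_atTop.1 (hlim.eventually_ge_atTop (|(d : ℝ)| / δ))
  refine ⟨max A₁ 1, ?_⟩
  intro A hA n a haA ha2A hfar
  have hA1 : 1 ≤ A := (le_max_right _ _).trans hA
  have hApos : 0 < A := by linarith
  have hapos : (0 : ℝ) < a := by linarith
  have hbound : |(d : ℝ)| * A ^ (3 / 5 : ℝ) ≤ δ * A := by
    have h1 := hA₁ A ((le_max_left _ _).trans hA)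
    rw [div_le_iff₀ hδ] at h1
    have h2 : A = A ^ (2 / 5 : ℝ) * A ^ (3 / 5 : ℝ) := by
      rw [← Real.rpow_add hApos]
      norm_num
    calc |(d : ℝ)| * A ^ (3 / 5 : ℝ) ≤ A ^ (2 / 5 : ℝ) * δ * A ^ (3 / 5 : ℝ) :=
          mul_le_mul_of_nonneg_right h1 (by positivity)
      _ = δ * (A ^ (2 / 5 : ℝ) * A ^ (3 / 5 : ℝ)) := by ring
      _ = δ * A := by rw [← h2]
  set K := ⌊Real.log A / 2⌋₊ with hK
  have hUl : 0 < Ul A := by unfold Ul; positivity
  have hUr : 0 < Ur A := by unfold Ur; positivity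
  -- the index set
  set I : Finset (Σ _ : ℕ, Σ _ : ℕ, List ℕ) := (Icc (n + 1) K).sigma (fun k =>
    ((range (k * (3 * k) + 1)).filter (fun T => Rg A k T a)).sigma (fun T =>
      (FWT (3 * k) k T).filter (fun w => (3 : ℤ) ^ k ∣ 2 ^ T * a - d * Wo w))) with hI
  set φ : (Σ _ : ℕ, Σ _ : ℕ, List ℕ) → ℤ := fun i =>
    (2 ^ i.2.1 * a - d * Wo i.2.2) / 3 ^ i.1 with hφ
  -- properties of the members
  have hprop : ∀ i ∈ I, (n + 1 ≤ i.1 ∧ i.1 ≤ K) ∧ Rg A i.1 i.2.1 a ∧ i.2.2.length = i.1 ∧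
      (∀ e ∈ i.2.2, 1 ≤ e) ∧ i.2.2.sum = i.2.1 ∧ i.2.2 ≠ [] ∧
      (3 : ℤ) ^ i.1 * φ i + d * Wo i.2.2 = 2 ^ i.2.1 * a := by
    rintro ⟨k, T, w⟩ hi
    rw [hI, mem_sigma, mem_sigma, mem_filter, mem_filter, mem_Icc] at hi
    obtain ⟨h1, ⟨_, h2⟩, h3, h4⟩ := hi
    simp only at h1 h2 h3 h4 ⊢
    unfold FWT at h3
    rw [mem_filter, mem_FW] at h3
    refine ⟨h1, h2, h3.1.1, fun e he => (h3.1.2 e he).1, h3.2, ?_, ?_⟩
    · intro h
      rw [h] at h3
      have := h3.1.1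
      simp at this
      omega
    · rw [hφ]
      simp only
      have := Int.mul_ediv_cancel' h4
      linarith
  have hest : ∀ i ∈ I, |(φ i : ℝ) - 2 ^ i.2.1 * a / 3 ^ i.1| ≤ δ * (2 ^ i.2.1 * a / 3 ^ i.1) := by
    intro i hi
    obtain ⟨h1, h2, h3, h4, h5, h6, h7⟩ := hprop i hi
    refine start_est ?_ h4 h3 h5 h7
    calc |(d : ℝ)| * 3 ^ i.1 ≤ |(d : ℝ)| * A ^ (3 / 5 : ℝ) :=
          mul_le_mul_of_nonneg_left (three_pow_le hA1 h1.2) (abs_nonneg _)
      _ ≤ δ * A := hbound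
      _ ≤ δ * a := mul_le_mul_of_nonneg_left haA hδ.le
  have hpath : ∀ i ∈ I, Odd (φ i) ∧ (Td d)^[i.2.1] (φ i) = a := by
    intro i hi
    obtain ⟨h1, h2, h3, h4, h5, h6, h7⟩ := hprop i hi
    have := path hd a i.2.2 h4 h6 (φ i) (by rw [h3, h5]; exact h7)
    rwa [h5] at this
  have hpos : ∀ i ∈ I, (0 : ℝ) < 2 ^ i.2.1 * a / 3 ^ i.1 := fun i _ => by positivity
  -- image in cls
  have hmem : ∀ i ∈ I, φ i ∈ cls (Pr d a) (Ul A) (Ur A) 0 1 0 := by
    intro i hi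
    obtain ⟨h1, h2, h3, h4, h5, h6, h7⟩ := hprop i hi
    have h8 := abs_le.1 (hest i hi)
    have h9 := hpos i hi
    obtain ⟨h10, h11⟩ := hpath i hi
    unfold Rg at h2
    rw [mem_cls]
    have hm : δ * (2 ^ i.2.1 * (a : ℝ) / 3 ^ i.1) ≤ 1 / 2 * (2 ^ i.2.1 * (a : ℝ) / 3 ^ i.1) :=
      mul_le_mul_of_nonneg_right hδ2 h9.le
    refine ⟨⟨?_, ?_⟩, h10, ⟨i.2.1, h11⟩, ?_⟩
    · linarith [h2.1, h8.1]
    · linarith [h2.2, h8.2]
    · simp
  -- no periodic points
  have hper : ∀ p : ℕ, 1 ≤ p → (Td d)^[p] a ≠ a := by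
    intro p hp hpa
    apply hfar
    have h1 : Function.IsPeriodicPt (Td d) p a := hpa
    have h2 := h1.mul_const ⌈Real.log A / 20⌉₊
    refine ⟨a, ?_, ha2A.le, p * ⌈Real.log A / 20⌉₊, ?_, h2⟩
    · have : (1 : ℝ) ≤ a := hA1.trans haA
      exact_mod_cast this
    · refine (Nat.le_ceil _).trans ?_
      have : ⌈Real.log A / 20⌉₊ ≤ p * ⌈Real.log A / 20⌉₊ := Nat.le_mul_of_pos_left _ hp
      exact_mod_cast this
  -- injectivity
  have hT : ∀ i ∈ I, ∀ j ∈ I, φ i = φ j → ¬ i.2.1 < j.2.1 := by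
    intro i hi j hj hij hlt
    obtain ⟨_, h1⟩ := hpath i hi
    obtain ⟨_, h2⟩ := hpath j hj
    apply hper (j.2.1 - i.2.1) (by omega)
    have h3 : j.2.1 = (j.2.1 - i.2.1) + i.2.1 := by omega
    rw [h3, Function.iterate_add_apply, ← hij, h1] at h2
    exact h2
  have hinj : ∀ i ∈ I, ∀ j ∈ I, φ i = φ j → i = j := by
    intro i hi j hj hij
    have hTT : i.2.1 = j.2.1 := by
      have h1 := hT i hi j hj hij
      have h2 := hT j hj i hi hij.symm
      omega
    obtain ⟨_, _, h3, h4, h5, h6, h7⟩ := hprop i hi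
    obtain ⟨_, _, h3', h4', h5', h6', h7'⟩ := hprop j hj
    have hw : i.2.2 = j.2.2 := by
      apply uniq hd a i.2.2 h4 h6 j.2.2 h4' h6' (by rw [h5, h5', hTT]) (φ i)
      · rw [h3, h5]; exact h7
      · rw [h3', h5', hij]; exact h7'
    have hk : i.1 = j.1 := by rw [← h3, ← h3', hw]
    rcases i with ⟨k, T, w⟩
    rcases j with ⟨k', T', w'⟩
    simp only at hTT hw hk
    subst hTT hw hk
    rfl
  -- the sums
  have hsum : ∑ k ∈ Icc (n + 1) K, ∑ T ∈ range (k * (3 * k) + 1),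
      (if Rg A k T a then (3 : ℝ) ^ k / (2 ^ T * a) * Nv d (3 * k) k T a else 0)
      = ∑ i ∈ I, (3 : ℝ) ^ i.1 / (2 ^ i.2.1 * a) := by
    rw [hI, sum_sigma]
    refine sum_congr rfl fun k _ => ?_
    rw [sum_sigma, sum_filter]
    refine sum_congr rfl fun T _ => ?_
    by_cases h : Rg A k T a
    · rw [if_pos h, if_pos h]
      unfold Nv
      rw [mul_comm, ← nsmul_eq_mul, ← sum_const]
    · rw [if_neg h, if_neg h]
  rw [hsum, mul_sum]
  unfold hs
  calc ∑ i ∈ I, (1 - ε) * ((3 : ℝ) ^ i.1 / (2 ^ i.2.1 * a))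
      ≤ ∑ i ∈ I, 1 / ((φ i : ℤ) : ℝ) := by
        refine sum_le_sum fun i hi => ?_
        have h8 := abs_le.1 (hest i hi)
        have h9 := hpos i hi
        set y : ℝ := 2 ^ i.2.1 * a / 3 ^ i.1 with hy
        have h10 : (3 : ℝ) ^ i.1 / (2 ^ i.2.1 * a) = 1 / y := by
          rw [hy, one_div_div]
        rw [h10]
        have h11 : (φ i : ℝ) ≤ (1 + δ) * y := by linarith [h8.2]
        have h12 : 0 < (φ i : ℝ) := by nlinarith [h8.1]
        rcases le_or_gt (1 - ε) 0 with h13 | h13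
        · have h14 : 0 < 1 / y := by positivity
          have h15 : 0 < 1 / (φ i : ℝ) := by positivity
          nlinarith
        · rw [mul_one_div, div_le_div_iff₀ h9 h12]
          have h14 : (1 - ε) * (1 + δ) ≤ 1 := by nlinarith
          calc (1 - ε) * (φ i : ℝ) ≤ (1 - ε) * ((1 + δ) * y) :=
                mul_le_mul_of_nonneg_left h11 h13.le
            _ = ((1 - ε) * (1 + δ)) * y := by ring
            _ ≤ 1 * y := mul_le_mul_of_nonneg_right h14 h9.le
    _ = ∑ x ∈ I.image φ, 1 / (x : ℝ) := by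
        rw [sum_image]
        intro i hi j hj hij
        exact hinj i hi j hj hij
    _ ≤ ∑ x ∈ cls (Pr d a) (Ul A) (Ur A) 0 1 0, 1 / (x : ℝ) := by
        apply sum_le_sum_of_subset_of_nonneg
        · intro x hx
          rw [mem_image] at hx
          obtain ⟨i, hi, rfl⟩ := hx
          exact hmem i hi
        · intro x hx _
          rw [mem_cls] at hx
          have : (0 : ℝ) < x := lt_of_lt_of_le hUl hx.1.1
          positivity

end Pool.Agent.Q11.PD
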